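import Pool.Agent.Helper74_ALT.StmtL
import Pool.Agent.Helper15_IGP.Hensel

/-!
# IGP, alternating version: module NP (Newton-Puiseux)
-/

set_option autoImplicit false

open Polynomial

namespace Pool.Agent.Helper74_ALT.H76

section

variable {Λ : Type} [Field Λ]

theorem coeff_powX_mul (M : ℕ) (hM : 0 < M) (f : LaurentSeries Λ) (m : ℤ) :
    (powX M hM f).coeff ((M : ℤ) * m) = f.coeff m :=
  HahnSeries.embDomain_coeff

theorem coeff_powX_not (M : ℕ) (hM : 0 < M) (f : LaurentSeries Λ) (m : ℤ) (h : ¬ (M : ℤ) ∣ m) :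
    (powX M hM f).coeff m = 0 := by
  refine HahnSeries.embDomain_of_notMem_range ?_
  rintro ⟨a, ha⟩
  exact h ⟨a, ha.symm⟩

/-- `X ↦ X ^ M` on power series, as a function -/
noncomputable def pMf (M : ℕ) (f : PowerSeries Λ) : PowerSeries Λ :=
  PowerSeries.mk fun n => if M ∣ n then PowerSeries.coeff (n / M) f else 0

theorem coeff_ofPS_neg (f : PowerSeries Λ) (m : ℤ) (hm : m < 0) :
    (HahnSeries.ofPowerSeries ℤ Λ f).coeff m = 0 := by
  rw [HahnSeries.ofPowerSeries_apply]
  refine HahnSeries.embDomain_of_notMem_range ?_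
  rintro ⟨a, ha⟩
  have h1 : ((a : ℕ) : ℤ) = m := ha
  omega

theorem ofPS_pMf (M : ℕ) (hM : 0 < M) (f : PowerSeries Λ) :
    HahnSeries.ofPowerSeries ℤ Λ (pMf M f) = powX M hM (HahnSeries.ofPowerSeries ℤ Λ f) := by
  ext m
  rcases lt_or_ge m 0 with hm | hm
  · rw [coeff_ofPS_neg _ _ hm]
    by_cases hd : (M : ℤ) ∣ m
    · obtain ⟨a, rfl⟩ := hd
      rw [coeff_powX_mul, coeff_ofPS_neg]
      by_contra hcon
      push Not at hcon
      have : 0 ≤ (M : ℤ) * a := by positivity
      omega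
    · rw [coeff_powX_not _ _ _ _ hd]
  · obtain ⟨n, rfl⟩ := Int.eq_ofNat_of_zero_le hm
    rw [HahnSeries.ofPowerSeries_apply_coeff]
    unfold pMf
    rw [PowerSeries.coeff_mk]
    split_ifs with hd
    · obtain ⟨a, rfl⟩ := hd
      rw [Nat.mul_div_cancel_left _ hM]
      push_cast
      rw [coeff_powX_mul, HahnSeries.ofPowerSeries_apply_coeff]
    · rw [coeff_powX_not]
      intro h
      exact hd (by exact_mod_cast h)

/-- `X ↦ X ^ M` on power series -/
noncomputable def pM (M : ℕ) (hM : 0 < M) : PowerSeries Λ →+* PowerSeries Λ where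
  toFun := pMf M
  map_one' := by
    apply HahnSeries.ofPowerSeries_injective (Γ := ℤ)
    rw [ofPS_pMf M hM, map_one, map_one]
  map_mul' f g := by
    apply HahnSeries.ofPowerSeries_injective (Γ := ℤ)
    rw [ofPS_pMf M hM, map_mul, map_mul, map_mul, ofPS_pMf M hM, ofPS_pMf M hM]
  map_zero' := by
    apply HahnSeries.ofPowerSeries_injective (Γ := ℤ)
    rw [ofPS_pMf M hM, map_zero, map_zero]
  map_add' f g := by
    apply HahnSeries.ofPowerSeries_injective (Γ := ℤ)
    rw [ofPS_pMf M hM, map_add, map_add, map_add, ofPS_pMf M hM, ofPS_pMf M hM]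

theorem ofPS_pM (M : ℕ) (hM : 0 < M) (f : PowerSeries Λ) :
    HahnSeries.ofPowerSeries ℤ Λ (pM M hM f) = powX M hM (HahnSeries.ofPowerSeries ℤ Λ f) :=
  ofPS_pMf M hM f

theorem coeff_pM (M : ℕ) (hM : 0 < M) (f : PowerSeries Λ) (n : ℕ) :
    PowerSeries.coeff n (pM M hM f) = if M ∣ n then PowerSeries.coeff (n / M) f else 0 := by
  change PowerSeries.coeff n (pMf M f) = _
  unfold pMf
  rw [PowerSeries.coeff_mk]

theorem const_pM (M : ℕ) (hM : 0 < M) (f : PowerSeries Λ) :
    PowerSeries.constantCoeff (pM M hM f) = PowerSeries.constantCoeff f := by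
  rw [← PowerSeries.coeff_zero_eq_constantCoeff_apply, coeff_pM, if_pos (dvd_zero _), Nat.zero_div,
    PowerSeries.coeff_zero_eq_constantCoeff_apply]

theorem pM_X (M : ℕ) (hM : 0 < M) : pM M hM (PowerSeries.X : PowerSeries Λ) = PowerSeries.X ^ M := by
  ext n
  rw [coeff_pM, PowerSeries.coeff_X_pow, PowerSeries.coeff_X]
  by_cases hn : n = M
  · subst hn
    simp [Nat.div_self hM]
  · rw [if_neg hn]
    split_ifs with h1 h2
    · obtain ⟨a, rfl⟩ := h1
      rw [Nat.mul_div_cancel_left _ hM] at h2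
      subst h2
      simp at hn
    · rfl
    · rfl

theorem pM_pM (M M' : ℕ) (hM : 0 < M) (hM' : 0 < M') (f : PowerSeries Λ) :
    pM M' hM' (pM M hM f) = pM (M * M') (Nat.mul_pos hM hM') f := by
  ext n
  rw [coeff_pM, coeff_pM (M * M')]
  by_cases h1 : M' ∣ n
  · obtain ⟨a, rfl⟩ := h1
    rw [if_pos (dvd_mul_right _ _), Nat.mul_div_cancel_left _ hM', coeff_pM]
    by_cases h2 : M ∣ a
    · obtain ⟨b, rfl⟩ := h2
      rw [if_pos (dvd_mul_right _ _), if_pos ⟨b, by ring⟩, Nat.mul_div_cancel_left _ hM]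
      congr 1
      have : M' * (M * b) = (M * M') * b := by ring
      rw [this, Nat.mul_div_cancel_left _ (Nat.mul_pos hM hM')]
    · rw [if_neg h2, if_neg]
      intro h3
      apply h2
      rw [mul_comm M' a] at h3
      exact Nat.dvd_of_mul_dvd_mul_right hM' h3
  · rw [if_neg h1, if_neg]
    intro h3
    exact h1 (dvd_trans (dvd_mul_left _ _) h3)

theorem ps_fac (a : PowerSeries Λ) (ha : a ≠ 0) : ∃ (o : ℕ) (u : PowerSeries Λ),
    a = PowerSeries.X ^ o * u ∧ PowerSeries.constantCoeff u ≠ 0 := by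
  obtain ⟨u, hu⟩ := PowerSeries.X_pow_order_dvd (φ := a)
  refine ⟨a.order.toNat, u, hu, ?_⟩
  have h1 := PowerSeries.coeff_order ha
  rw [hu] at h1
  have h2 := PowerSeries.coeff_X_pow_mul u a.order.toNat 0
  rw [zero_add] at h2
  rw [← hu] at h1
  rw [← hu] at h2
  rw [h2] at h1
  rwa [PowerSeries.coeff_zero_eq_constantCoeff_apply] at h1

theorem coeff_X_sub_C_pow' (r : Λ) (n k : ℕ) :
    ((X - C r) ^ n).coeff k = (-r) ^ (n - k) * (n.choose k : Λ) := by
  rw [sub_eq_add_neg, ← C_neg, coeff_X_add_C_pow]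

/-- the local form of the theorem of Newton and Puiseux -/
theorem np_local [CharZero Λ] [IsAlgClosed Λ] (m : ℕ) : 1 ≤ m → ∀ f : (PowerSeries Λ)[X],
    (∀ k, k < m → PowerSeries.constantCoeff (f.coeff k) = 0) →
    PowerSeries.constantCoeff (f.coeff m) ≠ 0 →
    ∃ (M : ℕ) (hM : 0 < M) (z : PowerSeries Λ), f.eval₂ (pM M hM) z = 0 := by
  induction m using Nat.strong_induction_on with
  | _ m ih =>
  classical
  intro hm f hf0 hf1
  have hm0 : (m : Λ) ≠ 0 := by
    have : m ≠ 0 := by omega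
    exact_mod_cast this
  -- kill the coefficient of degree `m - 1`
  obtain ⟨c, hc1, hc2⟩ := Pool.Agent.Helper15_IGP.exists_root_ps (hasseDeriv (m - 1) f) (0 : Λ)
    (by
      rw [← coeff_zero_eq_eval_zero, coeff_map, hasseDeriv_coeff, zero_add, Nat.choose_self,
        Nat.cast_one, one_mul]
      exact hf0 _ (by omega))
    (by
      rw [← coeff_zero_eq_eval_zero, coeff_derivative, coeff_map, hasseDeriv_coeff]
      have e1 : 0 + 1 + (m - 1) = m := by omega
      rw [e1, map_mul, map_natCast]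
      have e2 : m.choose (m - 1) = m := by
        obtain ⟨k, rfl⟩ : ∃ k, m = k + 1 := ⟨m - 1, by omega⟩
        simp
      rw [e2]
      refine mul_ne_zero (mul_ne_zero hm0 hf1) ?_
      simp)
  set g := taylor c f with hg
  have hgc : ∀ k, PowerSeries.constantCoeff (g.coeff k) = PowerSeries.constantCoeff (f.coeff k) := by
    intro k
    rw [← coeff_map, hg, map_taylor, hc2, taylor_zero, coeff_map]
  have hgm : g.coeff (m - 1) = 0 := by
    rw [hg, taylor_coeff, hc1]
  have hgroot : ∀ (M : ℕ) (hM : 0 < M) (z : PowerSeries Λ), g.eval₂ (pM M hM) z = 0 →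
      ∃ z', f.eval₂ (pM M hM) z' = 0 := by
    intro M hM z hz
    rw [hg, taylor_apply, eval₂_comp] at hz
    exact ⟨_, hz⟩
  suffices h : ∃ (M : ℕ) (hM : 0 < M) (z : PowerSeries Λ), g.eval₂ (pM M hM) z = 0 by
    obtain ⟨M, hM, z, hz⟩ := h
    obtain ⟨z', hz'⟩ := hgroot M hM z hz
    exact ⟨M, hM, z', hz'⟩
  by_cases hall : ∀ k, k < m → g.coeff k = 0
  · refine ⟨1, one_pos, 0, ?_⟩
    rw [eval₂_eq_eval_map, ← coeff_zero_eq_eval_zero, coeff_map, hall 0 (by omega), map_zero]
  push Not at hall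
  -- the slope
  choose! o u hou hu using fun (k : ℕ) (h : g.coeff k ≠ 0) => ps_fac (g.coeff k) h
  obtain ⟨k0, hk0, hmin⟩ := Finset.exists_min_image
    ((Finset.range m).filter fun k => g.coeff k ≠ 0) (fun k => (o k : ℚ) / ((m : ℚ) - k)) (by
      obtain ⟨k, h1, h2⟩ := hall
      exact ⟨k, Finset.mem_filter.mpr ⟨Finset.mem_range.mpr h1, h2⟩⟩)
  rw [Finset.mem_filter, Finset.mem_range] at hk0
  obtain ⟨hk0m, hk0ne⟩ := hk0
  have hk01 : k0 ≠ m - 1 := fun h => hk0ne (by rw [h]; exact hgm)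
  set s := o k0 with hs
  set M := m - k0 with hMdef
  have hM : 0 < M := by omega
  have hs1 : 1 ≤ s := by
    by_contra hcon
    have h0 : s = 0 := by omega
    have h1 := hou k0 hk0ne
    rw [← hs, h0, pow_zero, one_mul] at h1
    have h2 := hgc k0
    rw [hf0 k0 hk0m, h1] at h2
    exact hu k0 hk0ne h2
  have hslope : ∀ k, k < m → g.coeff k ≠ 0 → s * m ≤ M * o k + s * k := by
    intro k hk hne
    have h1 := hmin k (Finset.mem_filter.mpr ⟨Finset.mem_range.mpr hk, hne⟩)
    have hk' : (k : ℚ) < m := by exact_mod_cast hk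
    have hk0' : (k0 : ℚ) < m := by exact_mod_cast hk0m
    rw [div_le_div_iff₀ (by linarith) (by linarith)] at h1
    have h2 : (M : ℚ) = (m : ℚ) - k0 := by
      rw [hMdef, Nat.cast_sub hk0m.le]
    have h3 : ((s * m : ℕ) : ℚ) ≤ ((M * o k + s * k : ℕ) : ℚ) := by
      push_cast
      rw [h2]
      linarith
    exact_mod_cast h3
  set G := (g.map (pM M hM)).comp (C (PowerSeries.X ^ s) * X) with hG
  have hGc : ∀ k, G.coeff k = pM M hM (g.coeff k) * PowerSeries.X ^ (s * k) := by
    intro k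
    rw [hG, comp_C_mul_X_coeff, coeff_map, pow_mul]
  have hX : (PowerSeries.X : PowerSeries Λ) ≠ 0 := PowerSeries.X_ne_zero
  obtain ⟨h, hh⟩ : C ((PowerSeries.X : PowerSeries Λ) ^ (s * m)) ∣ G := by
    rw [C_dvd_iff_dvd_coeff]
    intro k
    rw [hGc]
    by_cases hk : k < m
    · by_cases hne : g.coeff k = 0
      · rw [hne, map_zero, zero_mul]
        exact dvd_zero _
      · rw [hou k hne, map_mul, map_pow, pM_X, ← pow_mul, mul_assoc, mul_comm (pM M hM (u k)),
          ← mul_assoc, ← pow_add]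
        exact Dvd.dvd.mul_right (pow_dvd_pow _ (hslope k hk hne)) _
    · exact Dvd.dvd.mul_left (pow_dvd_pow _ (Nat.mul_le_mul_left s (by omega))) _
  have hhc : ∀ k, PowerSeries.X ^ (s * m) * h.coeff k
      = pM M hM (g.coeff k) * PowerSeries.X ^ (s * k) := by
    intro k
    rw [← hGc, hh, coeff_C_mul]
  have hXp : ∀ n : ℕ, (PowerSeries.X : PowerSeries Λ) ^ n ≠ 0 := fun n => pow_ne_zero n hX
  have hhm : h.coeff m = pM M hM (g.coeff m) := by
    have := hhc m
    rw [mul_comm (pM M hM (g.coeff m))] at this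
    exact mul_left_cancel₀ (hXp _) this
  have hhm1 : h.coeff (m - 1) = 0 := by
    have := hhc (m - 1)
    rw [hgm, map_zero, zero_mul] at this
    exact (mul_eq_zero.mp this).resolve_left (hXp _)
  have hhk0 : h.coeff k0 = pM M hM (u k0) := by
    have h1 := hhc k0
    rw [hou k0 hk0ne, map_mul, map_pow, pM_X, ← pow_mul, ← hs] at h1
    have e1 : s * m = M * s + s * k0 := by
      have : m = M + k0 := by omega
      rw [this]
      ring
    rw [e1] at h1
    have h2 : PowerSeries.X ^ (M * s + s * k0) * h.coeff k0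
        = PowerSeries.X ^ (M * s + s * k0) * pM M hM (u k0) := by
      rw [h1, pow_add]
      ring
    exact mul_left_cancel₀ (hXp _) h2
  have hhbig : ∀ k, m < k → PowerSeries.constantCoeff (h.coeff k) = 0 := by
    intro k hk
    have h1 := hhc k
    have e1 : s * k = s * m + s * (k - m) := by
      have : k = m + (k - m) := by omega
      nth_rewrite 1 [this]
      ring
    rw [e1, pow_add, mul_comm (pM M hM (g.coeff k)), mul_assoc] at h1
    have h2 := mul_left_cancel₀ (hXp _) h1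
    rw [h2, map_mul, map_pow, PowerSeries.constantCoeff_X, zero_pow, zero_mul]
    have : 0 < s * (k - m) := Nat.mul_pos (by omega) (by omega)
    omega
  -- the reduction
  set hb := h.map (PowerSeries.constantCoeff (R := Λ)) with hhb
  have hbm : hb.coeff m ≠ 0 := by
    rw [hhb, coeff_map, hhm, const_pM, hgc]
    exact hf1
  have hbdeg : hb.natDegree = m := by
    refine natDegree_eq_of_le_of_coeff_ne_zero ?_ hbm
    rw [natDegree_le_iff_coeff_eq_zero]
    intro N hN
    rw [hhb, coeff_map]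
    exact hhbig N hN
  have hbm1 : hb.coeff (m - 1) = 0 := by
    rw [hhb, coeff_map, hhm1, map_zero]
  have hbk0 : hb.coeff k0 ≠ 0 := by
    rw [hhb, coeff_map, hhk0, const_pM]
    exact hu k0 hk0ne
  have hbne : hb ≠ 0 := fun h0 => hbm (by rw [h0, coeff_zero])
  obtain ⟨c1, hc1⟩ := IsAlgClosed.exists_root hb (by
    rw [degree_eq_natDegree hbne, hbdeg]
    have : m ≠ 0 := by omega
    exact_mod_cast this)
  obtain ⟨r, hr, hrdvd⟩ := exists_eq_pow_rootMultiplicity_mul_and_not_dvd hb hbne c1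
  set m' := rootMultiplicity c1 hb with hm'
  have hm'1 : 1 ≤ m' := (rootMultiplicity_pos hbne).mpr hc1
  have hrne : r ≠ 0 := fun h0 => hbne (by rw [hr, h0, mul_zero])
  have hdeg : m = m' + r.natDegree := by
    rw [← hbdeg, hr, natDegree_mul (pow_ne_zero _ (X_sub_C_ne_zero c1)) hrne, natDegree_pow,
      natDegree_X_sub_C, mul_one]
  have hm'm : m' < m := by
    by_contra hcon
    have h1 : r.natDegree = 0 := by omega
    have h2 : m' = m := by omega
    rw [eq_C_of_natDegree_eq_zero h1, h2] at hr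
    have hr0 : r.coeff 0 ≠ 0 := by
      intro h0
      rw [eq_C_of_natDegree_eq_zero h1, h0] at hrne
      simp at hrne
    have h3 : hb.coeff (m - 1) = 0 := hbm1
    rw [hr, coeff_mul_C, coeff_X_sub_C_pow'] at h3
    have e1 : m - (m - 1) = 1 := by omega
    have e2 : m.choose (m - 1) = m := by
      obtain ⟨k, rfl⟩ : ∃ k, m = k + 1 := ⟨m - 1, by omega⟩
      simp
    rw [e1, e2, pow_one] at h3
    have h4 : c1 = 0 := by
      rcases mul_eq_zero.mp h3 with h5 | h5
      · rcases mul_eq_zero.mp h5 with h6 | h6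
        · exact neg_eq_zero.mp h6
        · exact absurd h6 hm0
      · exact absurd h5 hr0
    apply hbk0
    rw [hr, coeff_mul_C, coeff_X_sub_C_pow', h4, neg_zero, zero_pow (by omega), zero_mul, zero_mul]
  have hreval : r.eval c1 ≠ 0 := by
    intro h0
    exact hrdvd (dvd_iff_isRoot.mpr h0)
  set f1 := taylor (PowerSeries.C c1) h with hf1def
  have hf1c : ∀ k, PowerSeries.constantCoeff (f1.coeff k) = (X ^ m' * taylor c1 r).coeff k := by
    intro k
    rw [← coeff_map, hf1def, map_taylor]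
    have e1 : PowerSeries.constantCoeff (PowerSeries.C c1 : PowerSeries Λ) = c1 := by simp
    rw [e1, ← hhb]
    congr 1
    nth_rewrite 1 [hr]
    rw [taylor_mul]
    congr 1
    have e2 : taylor c1 ((X - C c1) ^ m') = (taylor c1 (X - C c1)) ^ m' :=
      map_pow (taylorAlgHom c1) _ _
    rw [e2, map_sub, taylor_X, taylor_C, add_sub_cancel_right]
  obtain ⟨M', hM', w, hw⟩ := ih m' hm'm hm'1 f1
    (fun k hk => by rw [hf1c, coeff_X_pow_mul', if_neg (by omega)])
    (by rw [hf1c, coeff_X_pow_mul', if_pos le_rfl, Nat.sub_self, taylor_coeff_zero]; exact hreval)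
  -- going back
  rw [hf1def, taylor_apply, eval₂_comp] at hw
  set w' := (X + C (PowerSeries.C c1 : PowerSeries Λ)).eval₂ (pM M' hM') w with hw'
  have hGw : G.eval₂ (pM M' hM') w' = 0 := by
    rw [hh, eval₂_mul, hw, mul_zero]
  rw [hG, eval₂_comp, eval₂_map] at hGw
  refine ⟨M * M', Nat.mul_pos hM hM', eval₂ (pM M' hM') w' (C (PowerSeries.X ^ s) * X), ?_⟩
  have e1 : (pM M' hM').comp (pM M hM) = (pM (M * M') (Nat.mul_pos hM hM') :
      PowerSeries Λ →+* PowerSeries Λ) := RingHom.ext fun f => pM_pM M M' hM hM' f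
  rw [← e1]
  exact hGw

/-- monic polynomials over power series -/
theorem np_monic [CharZero Λ] [IsAlgClosed Λ] (f : (PowerSeries Λ)[X]) (hf : f.Monic)
    (hd : f.natDegree ≠ 0) :
    ∃ (M : ℕ) (hM : 0 < M) (z : PowerSeries Λ), f.eval₂ (pM M hM) z = 0 := by
  set hb := f.map (PowerSeries.constantCoeff (R := Λ)) with hhb
  have hbmon : hb.Monic := hf.map _
  have hbdeg : hb.natDegree = f.natDegree := hf.natDegree_map _
  have hbne : hb ≠ 0 := hbmon.ne_zero
  obtain ⟨c1, hc1⟩ := IsAlgClosed.exists_root hb (by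
    rw [degree_eq_natDegree hbne, hbdeg]
    exact_mod_cast hd)
  obtain ⟨r, hr, hrdvd⟩ := exists_eq_pow_rootMultiplicity_mul_and_not_dvd hb hbne c1
  set m' := rootMultiplicity c1 hb with hm'
  have hm'1 : 1 ≤ m' := (rootMultiplicity_pos hbne).mpr hc1
  have hreval : r.eval c1 ≠ 0 := by
    intro h0
    exact hrdvd (dvd_iff_isRoot.mpr h0)
  have hf1c : ∀ k, PowerSeries.constantCoeff ((taylor (PowerSeries.C c1) f).coeff k)
      = (X ^ m' * taylor c1 r).coeff k := by
    intro k
    rw [← coeff_map, map_taylor]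
    have e1 : PowerSeries.constantCoeff (PowerSeries.C c1 : PowerSeries Λ) = c1 := by simp
    rw [e1, ← hhb]
    congr 1
    nth_rewrite 1 [hr]
    rw [taylor_mul]
    congr 1
    have e2 : taylor c1 ((X - C c1) ^ m') = (taylor c1 (X - C c1)) ^ m' :=
      map_pow (taylorAlgHom c1) _ _
    rw [e2, map_sub, taylor_X, taylor_C, add_sub_cancel_right]
  obtain ⟨M', hM', w, hw⟩ := np_local m' hm'1 (taylor (PowerSeries.C c1) f)
    (fun k hk => by rw [hf1c, coeff_X_pow_mul', if_neg (by omega)])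
    (by rw [hf1c, coeff_X_pow_mul', if_pos le_rfl, Nat.sub_self, taylor_coeff_zero]; exact hreval)
  rw [taylor_apply, eval₂_comp] at hw
  exact ⟨M', hM', _, hw⟩

theorem mem_range_ofPS (a : LaurentSeries Λ) (h : ∀ n : ℤ, n < 0 → a.coeff n = 0) :
    a ∈ Set.range (HahnSeries.ofPowerSeries ℤ Λ) := by
  refine ⟨PowerSeries.mk fun n => a.coeff n, ?_⟩
  ext m
  rcases lt_or_ge m 0 with hm | hm
  · rw [coeff_ofPS_neg _ _ hm, h m hm]
  · obtain ⟨n, rfl⟩ := Int.eq_ofNat_of_zero_le hm
    rw [HahnSeries.ofPowerSeries_apply_coeff, PowerSeries.coeff_mk]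

theorem coeff_single_pow_mul (N j : ℕ) (a : LaurentSeries Λ) (n : ℤ) :
    (a * (HahnSeries.single (N : ℤ) (1 : Λ)) ^ j).coeff n = a.coeff (n - N * j) := by
  have e1 : (HahnSeries.single (N : ℤ) (1 : Λ)) ^ j = HahnSeries.single ((N : ℤ) * j) (1 : Λ) := by
    rw [HahnSeries.single_pow, one_pow]
    congr 1
    simp [mul_comm]
  rw [e1]
  have := HahnSeries.coeff_mul_single_add (r := (1 : Λ)) (x := a) (a := n - N * j) (b := (N : ℤ) * j)
  rw [sub_add_cancel, mul_one] at this
  exact this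

/-- monic polynomials over Laurent series -/
theorem np_laurent [CharZero Λ] [IsAlgClosed Λ] (q : (LaurentSeries Λ)[X]) (hq : q.Monic)
    (hd : q.natDegree ≠ 0) :
    ∃ (M : ℕ) (hM : 0 < M) (z : LaurentSeries Λ), q.eval₂ (powX M hM) z = 0 := by
  classical
  -- a bound for the orders
  obtain ⟨N, hN⟩ : ∃ N : ℕ, ∀ k, ∀ n : ℤ, n < -(N : ℤ) → (q.coeff k).coeff n = 0 := by
    refine ⟨∑ k ∈ q.support, (q.coeff k).order.natAbs, fun k n hn => ?_⟩
    by_cases hk : k ∈ q.support
    · apply HahnSeries.coeff_eq_zero_of_lt_order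
      have h1 : (q.coeff k).order.natAbs ≤ ∑ k ∈ q.support, (q.coeff k).order.natAbs :=
        Finset.single_le_sum (f := fun k => (q.coeff k).order.natAbs) (fun _ _ => Nat.zero_le _) hk
      omega
    · rw [notMem_support_iff.mp hk, HahnSeries.coeff_zero]
  set s : LaurentSeries Λ := HahnSeries.single (N : ℤ) (1 : Λ) with hs
  have hs0 : s ≠ 0 := by
    rw [hs]
    exact HahnSeries.single_ne_zero one_ne_zero
  have hmon : (q.scaleRoots s).Monic := (monic_scaleRoots_iff s).mpr hq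
  have hlift : q.scaleRoots s ∈ lifts (HahnSeries.ofPowerSeries ℤ Λ) := by
    rw [lifts_iff_coeff_lifts]
    intro k
    rw [coeff_scaleRoots]
    rcases lt_trichotomy k q.natDegree with hk | hk | hk
    · refine mem_range_ofPS _ fun n hn => ?_
      rw [hs, coeff_single_pow_mul]
      apply hN
      have h1 : 1 ≤ q.natDegree - k := by omega
      have h2 : (N : ℤ) ≤ (N : ℤ) * ((q.natDegree - k : ℕ) : ℤ) := by
        nlinarith [show (1 : ℤ) ≤ ((q.natDegree - k : ℕ) : ℤ) by exact_mod_cast h1,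
          show (0 : ℤ) ≤ (N : ℤ) by positivity]
      omega
    · refine ⟨1, ?_⟩
      rw [hk, Nat.sub_self, pow_zero, mul_one, map_one]
      exact hq.coeff_natDegree.symm
    · refine ⟨0, ?_⟩
      rw [coeff_eq_zero_of_natDegree_lt hk, zero_mul, map_zero]
  obtain ⟨f, hf1, hf2, hf3⟩ := lifts_and_natDegree_eq_and_monic hlift hmon
  obtain ⟨M, hM, z, hz⟩ := np_monic f hf3 (by rw [hf2, natDegree_scaleRoots]; exact hd)
  have hps0 : powX M hM s ≠ 0 := by
    intro h0
    exact hs0 ((powX M hM).injective (by rw [h0, map_zero]))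
  refine ⟨M, hM, HahnSeries.ofPowerSeries ℤ Λ z / powX M hM s, ?_⟩
  have h1 : eval₂ (powX M hM) (HahnSeries.ofPowerSeries ℤ Λ z) (q.scaleRoots s) = 0 := by
    rw [← hf1, eval₂_map]
    have e1 : (powX M hM).comp (HahnSeries.ofPowerSeries ℤ Λ)
        = (HahnSeries.ofPowerSeries ℤ Λ).comp (pM M hM) :=
      RingHom.ext fun a => (ofPS_pM M hM a).symm
    rw [e1, ← hom_eval₂, hz, map_zero]
  have h2 := scaleRoots_eval₂_mul (p := q) (powX M hM) (HahnSeries.ofPowerSeries ℤ Λ z / powX M hM s) s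
  rw [mul_div_cancel₀ _ hps0, h1] at h2
  exact (mul_eq_zero.mp h2.symm).resolve_left (pow_ne_zero _ hps0)

end

/-- NP -/
theorem np : NpStmt := by
  intro Λ _ _ _ E L _ _ _ _ j₀
  have hE : CharZero E := by
    refine ⟨fun a b hab => ?_⟩
    have h1 := congrArg j₀ hab
    rw [map_natCast, map_natCast] at h1
    exact Nat.cast_injective h1
  let pb := Field.powerBasisOfFiniteOfSeparable E L
  have hint : IsIntegral E pb.gen := pb.isIntegral_gen
  obtain ⟨M, hM, z, hz⟩ := np_laurent ((minpoly E pb.gen).map j₀) ((minpoly.monic hint).map _) (by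
    rw [(minpoly.monic hint).natDegree_map]
    exact (minpoly.natDegree_pos hint).ne')
  rw [eval₂_map] at hz
  let _ : Algebra E (LaurentSeries Λ) := ((powX M hM).comp j₀).toAlgebra
  let φ : L →ₐ[E] LaurentSeries Λ := pb.lift z (by
    rw [aeval_def]
    exact hz)
  exact ⟨M, hM, φ.toRingHom, fun x => φ.commutes x⟩

end Pool.Agent.Helper74_ALT.H76
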